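import Pool.Agent.H57.OPP.RDefs

/-!
# OPP, block R: the board

Statements `S_XXX` of the modules of block R. `I` is a finite index set, vectors are functions
`I → ℂ`, the inner product of `u` and `v` is `star u ⬝ᵥ v`.
-/

set_option autoImplicit false

open Matrix
open scoped Uniformity

namespace Pool.OPP

section defs
variable {I : Type} [Fintype I] [DecidableEq I] {h : ℕ}

/-- the reference index of a type -/
def Cmb.r (c : Cmb I h) : Option (Fin h) → I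
  | none => c.j0
  | some w => c.iw w

theorem Cmb.typ_r (c : Cmb I h) (t : Option (Fin h)) : c.typ (c.r t) = t := by
  cases t with
  | none => exact c.typ_j0
  | some w => exact c.typ_iw w

theorem Cmb.r_ne (c : Cmb I h) (t : Option (Fin h)) : c.r t ≠ c.is := by
  cases t with
  | none => exact c.is_ne.symm
  | some w =>
    intro e
    have h1 := c.typ_iw w
    have h2 : c.iw w = c.is := e
    rw [h2, c.typ_is] at h1
    cases h1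

/-- the number of indices of a type -/
def Cmb.n (c : Cmb I h) (t : Option (Fin h)) : ℕ := (Finset.univ.filter fun i => c.typ i = t).card

theorem Cmb.ok_r (c : Cmb I h) {i : I} (hi : i ≠ c.is) : c.ok i (c.r (c.typ i)) :=
  ⟨(c.typ_r _).symm, hi, c.r_ne _⟩

theorem Cmb.ok_r' (c : Cmb I h) {i : I} (hi : i ≠ c.is) : c.ok (c.r (c.typ i)) i :=
  ⟨c.typ_r _, c.r_ne _, hi⟩

theorem Cmb.ok_rr (c : Cmb I h) (t : Option (Fin h)) : c.ok (c.r t) (c.r t) :=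
  ⟨rfl, c.r_ne _, c.r_ne _⟩

theorem Cmb.ok_self (c : Cmb I h) {i : I} (hi : i ≠ c.is) : c.ok i i := ⟨rfl, hi, hi⟩

/-- unit vectors spanning the lines of the projections `E (r t) (r t)` -/
structure Frm (c : Cmb I h) (M : Gen I h → Matrix I I ℂ) (ξ : Option (Fin h) → I → ℂ) :
    Prop where
  unit : ∀ t, star (ξ t) ⬝ᵥ ξ t = 1
  line : ∀ t, M (.E (c.r t) (c.r t)) = vecMulVec (ξ t) (star (ξ t))

/-- the unitary matrix of the frame `ξ` -/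
structure VOK (c : Cmb I h) (p : EuclideanSpace ℂ (Fin 3)) (M : Gen I h → Matrix I I ℂ)
    (ξ : Option (Fin h) → I → ℂ) (V : Matrix I I ℂ) : Prop where
  uni : Vᴴ * V = 1
  /-- the columns `i ≠ i*` -/
  col : ∀ i, i ≠ c.is → (fun k => V k i) = M (.E i (c.r (c.typ i))) *ᵥ ξ (c.typ i)
  /-- the column `i*` -/
  eta : ∃ b : EuclideanSpace ℂ (Fin 3), ‖b‖ = 1 ∧
    (∀ k, M (.Y k) = b k • vecMulVec (fun i => V i c.is) (star (ξ none))) ∧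
    ∃ a : ℝ, 7 / 25 ≤ a ∧ inner ℂ p b = (a : ℂ)

/-- the phase of a complex number -/
noncomputable def ph (s : ℂ) : ℂ := if s = 0 then 1 else s / (‖s‖ : ℂ)

theorem norm_ph (s : ℂ) : ‖ph s‖ = 1 := by
  unfold ph
  split_ifs with hs
  · simp
  · have h1 : ‖s‖ ≠ 0 := by simpa using hs
    rw [norm_div, Complex.norm_real, norm_norm, div_self h1]

theorem ph_mul_norm (s : ℂ) : ph s * (‖s‖ : ℂ) = s := by
  unfold ph
  split_ifs with hs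
  · simp [hs]
  · have h1 : (‖s‖ : ℂ) ≠ 0 := by simpa using hs
    field_simp

end defs

/-! ## linear algebra -/

/-- RK : projections -/
def S_RK : Prop :=
  ∀ (I : Type) [Fintype I] [DecidableEq I] (P : Matrix I I ℂ), Pᴴ = P → P * P = P →
    (∃ n : ℕ, P.trace = n) ∧
    (P.trace = 1 → ∃ ξ : I → ℂ, star ξ ⬝ᵥ ξ = 1 ∧ P = vecMulVec ξ (star ξ))

/-- DIM : all the ranks are one -/
def S_DIM : Prop :=
  ∀ (I : Type) [Fintype I] [DecidableEq I] (h : ℕ) (c : Cmb I h) (M : Gen I h → Matrix I I ℂ),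
    Rel c M → ∀ t, (M (.E (c.r t) (c.r t))).trace = 1

/-- ETA : the range of the projection of `i*` -/
def S_ETA : Prop :=
  ∀ (I : Type) [Fintype I] [DecidableEq I] (h : ℕ) (c : Cmb I h) (M : Gen I h → Matrix I I ℂ)
    (ξ : Option (Fin h) → I → ℂ), Rel c M → Frm c M ξ →
    ∃ (η : I → ℂ) (b : EuclideanSpace ℂ (Fin 3)), star η ⬝ᵥ η = 1 ∧ ‖b‖ = 1 ∧
      (∀ k, M (.Y k) = b k • vecMulVec η (star (ξ none))) ∧
      (∀ i, i ≠ c.is → M (.E i i) *ᵥ η = 0)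

/-- QW : the projection `q_w` on the frame -/
def S_QW : Prop :=
  ∀ (I : Type) [Fintype I] [DecidableEq I] (h : ℕ) (c : Cmb I h) (M : Gen I h → Matrix I I ℂ)
    (ξ : Option (Fin h) → I → ℂ), Rel c M → Frm c M ξ →
    ∀ w, (∀ g, c.q w * M g = M g * c.q w) →
      c.q w *ᵥ ξ none = 0 ∧ c.q w *ᵥ ξ (some w) = ξ (some w)

/-- CW : the vector `b` belongs to `F_w` -/
def S_CW : Prop :=
  ∀ (I : Type) [Fintype I] [DecidableEq I] (h : ℕ) (c : Cmb I h) (M : Gen I h → Matrix I I ℂ)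
    (ξ : Option (Fin h) → I → ℂ), Rel c M → Frm c M ξ →
    ∀ w, (∀ g, c.q w * M g = M g * c.q w) →
      c.q w *ᵥ ξ none = 0 → c.q w *ᵥ ξ (some w) = ξ (some w) →
      ∀ (η : I → ℂ) (b : EuclideanSpace ℂ (Fin 3)), star η ⬝ᵥ η = 1 →
        (∀ k, M (.Y k) = b k • vecMulVec η (star (ξ none))) →
        4 / 5 ≤ ‖inner ℂ (c.cw w) b‖

/-- ANG : the angle lemma -/
def S_ANG : Prop :=
  ∀ a p b : EuclideanSpace ℂ (Fin 3), ‖a‖ = 1 → ‖p‖ = 1 → ‖b‖ = 1 →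
    4 / 5 ≤ ‖inner ℂ a p‖ → 4 / 5 ≤ ‖inner ℂ a b‖ → 7 / 25 ≤ ‖inner ℂ p b‖

/-- VV : the unitary matrix exists -/
def S_VV : Prop :=
  ∀ (I : Type) [Fintype I] [DecidableEq I] (h : ℕ) (c : Cmb I h)
    (p : EuclideanSpace ℂ (Fin 3)) (M : Gen I h → Matrix I I ℂ), RPt c p M →
    ∃ ξ : Option (Fin h) → I → ℂ, Frm c M ξ ∧ ∃ V, VOK c p M ξ V

/-- EQV : equivariance of frame and matrix -/
def S_EQV : Prop :=
  ∀ (I : Type) [Fintype I] [DecidableEq I] (h : ℕ) (c : Cmb I h)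
    (p : EuclideanSpace ℂ (Fin 3)) (M : Gen I h → Matrix I I ℂ)
    (ξ : Option (Fin h) → I → ℂ) (V : Matrix I I ℂ),
    (∀ ζ : Option (Fin h) → I → ℂ, c.conjU (c.conjU (c.conjU M)) = M ∧
      (fun t => c.Ui *ᵥ (c.Ui *ᵥ (c.Ui *ᵥ ζ t))) = ζ) ∧
    (Frm c M ξ → Frm c (c.conjU M) (fun t => c.Ui *ᵥ ξ t)) ∧
    (VOK c p M ξ V → VOK c (om • p) (c.conjU M) (fun t => c.Ui *ᵥ ξ t) (c.Ui * V * c.Ui)) ∧
    c.Ui * (c.Ui * (c.Ui * V * c.Ui) * c.Ui) * c.Ui = V ∧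
    (c.Ui * V * c.Ui).det = om * V.det ∧
    (∀ u v : I → ℂ, star (c.Ui *ᵥ u) ⬝ᵥ (c.Ui *ᵥ v) = star u ⬝ᵥ v)

/-- EC : equivariant choice for an action of `Z/3` -/
def S_EC : Prop :=
  ∀ (X Y : Type) [Nonempty Y] (σ : X → X) (τ : Y → Y) (P : X → Y → Prop),
    (∀ x, σ (σ (σ x)) = x) → (∀ y, τ (τ (τ y)) = y) → (∀ x y, P x y → P (σ x) (τ y)) →
    (∀ x, (∃ y, P x y) → σ x ≠ x) →
    ∃ f : X → Y, ∀ x, (∃ y, P x y) → P x (f x) ∧ f (σ x) = τ (f x)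

/-! ## estimates -/

/-- PROD : products of powers -/
def S_PROD : Prop :=
  ∀ (T : Type) [Fintype T] (n : T → ℕ) (z s : T → ℂ), (∀ t, ‖z t‖ ≤ 1) → (∀ t, ‖s t‖ ≤ 1) →
    ‖∏ t, z t ^ n t - ∏ t, s t ^ n t‖ ≤ ∑ t, (n t : ℝ) * ‖z t - s t‖

/-- DETC : the determinant is uniformly continuous on bounded sets -/
def S_DETC : Prop :=
  ∀ (I : Type) [Fintype I] [DecidableEq I] (ε : ℝ), 0 < ε → ∃ δ : ℝ, 0 < δ ∧
    ∀ A B : Matrix I I ℂ, (∀ i j, ‖A i j‖ ≤ 1) → (∀ i j, ‖B i j‖ ≤ 1) →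
      (∀ i j, ‖A i j - B i j‖ < δ) → ‖A.det - B.det‖ < ε

/-- PH : unit vectors with close projections differ by a phase, up to a small error -/
def S_PH : Prop :=
  ∀ (I : Type) [Fintype I] [DecidableEq I] (ε : ℝ), 0 < ε → ∃ δ : ℝ, 0 < δ ∧
    ∀ u v : I → ℂ, star u ⬝ᵥ u = 1 → star v ⬝ᵥ v = 1 →
      (∀ i j, ‖vecMulVec u (star u) i j - vecMulVec v (star v) i j‖ < δ) →
      ‖ph (star u ⬝ᵥ v) - star u ⬝ᵥ v‖ < ε ∧ ∀ i, ‖v i - ph (star u ⬝ᵥ v) * u i‖ < ε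

/-- COL : the columns of the two unitary matrices -/
def S_COL : Prop :=
  ∀ (I : Type) [Fintype I] [DecidableEq I] (h : ℕ) (c : Cmb I h) (ε : ℝ), 0 < ε →
    ∃ δ : ℝ, 0 < δ ∧ ∀ (M M' : Gen I h → Matrix I I ℂ) (p p' : EuclideanSpace ℂ (Fin 3))
      (ξ ξ' : Option (Fin h) → I → ℂ) (V V' : Matrix I I ℂ),
      RPt c p M → RPt c p' M' → Frm c M ξ → Frm c M' ξ' → VOK c p M ξ V → VOK c p' M' ξ' V' →
      Near δ M M' → ‖p - p'‖ < δ →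
      ∀ i j, ‖V' i j - V i j * ph (star (ξ (c.typ j)) ⬝ᵥ ξ' (c.typ j))‖ < ε

/-- DET : the determinants -/
def S_DET : Prop :=
  ∀ (I : Type) [Fintype I] [DecidableEq I] (h : ℕ) (c : Cmb I h) (ε : ℝ), 0 < ε →
    ∃ δ : ℝ, 0 < δ ∧ ∀ (M M' : Gen I h → Matrix I I ℂ) (p p' : EuclideanSpace ℂ (Fin 3))
      (ξ ξ' : Option (Fin h) → I → ℂ) (V V' : Matrix I I ℂ),
      RPt c p M → RPt c p' M' → Frm c M ξ → Frm c M' ξ' → VOK c p M ξ V → VOK c p' M' ξ' V' →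
      Near δ M M' → ‖p - p'‖ < δ →
      ‖V'.det - V.det * ∏ t, ph (star (ξ t) ⬝ᵥ ξ' t) ^ c.n t‖ < ε

/-- COC : the cocycle estimate -/
def S_COC : Prop :=
  ∀ (I : Type) [Fintype I] [DecidableEq I] (h : ℕ) (c : Cmb I h) (m : Option (Fin h) → ℕ)
    (ε : ℝ), 0 < ε →
    ∃ δ : ℝ, 0 < δ ∧ ∀ (M M' M'' : Gen I h → Matrix I I ℂ)
      (ξ ξ' ξ'' : Option (Fin h) → I → ℂ),
      Frm c M ξ → Frm c M' ξ' → Frm c M'' ξ'' →
      Near δ M M' → Near δ M' M'' → Near δ M M'' →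
      ‖(∏ t, ph (star (ξ t) ⬝ᵥ ξ' t) ^ m t) * (∏ t, ph (star (ξ' t) ⬝ᵥ ξ'' t) ^ m t)
        - ∏ t, ph (star (ξ t) ⬝ᵥ ξ'' t) ^ m t‖ < ε

/-! ## the end -/

/-- RFIN : assembly of `RStmt` -/
def S_RFIN : Prop := S_VV → S_EQV → S_EC → S_DET → S_COC → RStmt

/-- RTOP : from `RStmt` to the final statement -/
def S_RTOP : Prop := RStmt → RFinStmt

end Pool.OPP
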