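import Pool.Agent.H24.OPP.TTDefs
import Pool.Agent.H92.OPP.BridgeDefs

/-!
# OPP, block R: the finite dimensional representation theorem

Section 3 of `OPP_PLAN.md`, written as a statement about finite matrices, independent of the
definition of the algebra.

* `Gen I h` : names of the generators of the base algebra;
* `Cmb I h` : the combinatorial data (types, special indices, number facts, centres);
* `Rel c M` : the relations of the generators, for matrices `M g`;
* `RPt c p M` : `M` is a representation and `p` a point of the sphere such that for some `w`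
  with `p ∈ F_w` all matrices `M g` commute with `q_w`;
* `RStmt` : the determinant function and the transition function exist.
-/

set_option autoImplicit false

open Matrix
open scoped Uniformity

namespace Pool.OPP

/-- names of the generators of the base algebra. Their elements in `A_0` are (with `y = x_0`):
`E i j` : the constant matrix unit `e_ij` if `Cmb.ok i j`, and `0` otherwise;
`Y k` : `y_k e_{i* j0}`; `T w` : `β_w(y) e_{i_w j0}`; `H k l` : `y_k conj(y_l) 1`;
`B w` : `β_w(y) 1`; `R w` : `r_w(y) 1`, `r_w = sqrt(|<c_w,y>|^2 + (8/5) β_w - 16/25)`. -/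
inductive Gen (I : Type) (h : ℕ) : Type
  | E (i j : I)
  | Y (k : Fin 3)
  | T (w : Fin h)
  | H (k l : Fin 3)
  | B (w : Fin h)
  | R (w : Fin h)

/-- the combinatorial data: `typ i = none` for `i ∈ I_C`, `typ i = some w` for `i ∈ I_w` -/
structure Cmb (I : Type) [Fintype I] [DecidableEq I] (h : ℕ) where
  /-- the type of an index -/
  typ : I → Option (Fin h)
  /-- the index `i*` -/
  is : I
  /-- the index `j0` -/
  j0 : I
  /-- the indices `i_w` -/
  iw : Fin h → I
  typ_is : typ is = none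
  typ_j0 : typ j0 = none
  is_ne : is ≠ j0
  typ_iw : ∀ w, typ (iw w) = some w
  /-- (N1) -/
  N1 : ∀ d : Option (Fin h) → ℕ,
    ∑ t, (Finset.univ.filter fun i => typ i = t).card * d t = Fintype.card I → ∀ t, d t = 1
  /-- (N2) -/
  N2 : ∀ w, ∀ T : Finset (Fin h), (Finset.univ.filter fun i => typ i = some w).card
    = ∑ v ∈ T, (Finset.univ.filter fun i => typ i = some v).card → T = {w}
  /-- (N3) -/
  N3 : ∀ w, (Finset.univ.filter fun i => typ i = some w).card + 1
    < (Finset.univ.filter fun i => typ i = none).card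
  /-- divisibility by three -/
  N4 : ∀ t, 3 ∣ (Finset.univ.filter fun i => typ i = t).card
  /-- the centres -/
  cw : Fin h → EuclideanSpace ℂ (Fin 3)
  norm_cw : ∀ w, ‖cw w‖ = 1

variable {I : Type} [Fintype I] [DecidableEq I] {h : ℕ}

/-- the pairs of indices for which `e_ij` belongs to the base algebra -/
def Cmb.ok (c : Cmb I h) (i j : I) : Prop := c.typ i = c.typ j ∧ i ≠ c.is ∧ j ≠ c.is

/-- the projection `q_w` on the indices of type `w` -/
def Cmb.q (c : Cmb I h) (w : Fin h) : Matrix I I ℂ :=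
  Matrix.diagonal fun i => if c.typ i = some w then 1 else 0

/-- the diagonal unitary `U` -/
noncomputable def Cmb.U (c : Cmb I h) : Matrix I I ℂ :=
  Matrix.diagonal fun i => if i = c.is then om else 1

/-- the inverse of the diagonal unitary `U` -/
noncomputable def Cmb.Ui (c : Cmb I h) : Matrix I I ℂ :=
  Matrix.diagonal fun i => if i = c.is then star om else 1

/-- `U^{-1} M U` -/
noncomputable def Cmb.conjU (c : Cmb I h) (M : Gen I h → Matrix I I ℂ) :
    Gen I h → Matrix I I ℂ := fun g => c.Ui * M g * c.U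

/-- The relations of the generators. -/
structure Rel (c : Cmb I h) (M : Gen I h → Matrix I I ℂ) : Prop where
  star_E : ∀ i j, c.ok i j → (M (.E i j))ᴴ = M (.E j i)
  E_mul : ∀ i j l, c.ok i j → c.ok j l → M (.E i j) * M (.E j l) = M (.E i l)
  E_mul_ne : ∀ i j k l, c.ok i j → c.ok k l → j ≠ k → M (.E i j) * M (.E k l) = 0
  sum_one : ∑ i ∈ Finset.univ.erase c.is, M (.E i i) + ∑ k, M (.Y k) * (M (.Y k))ᴴ = 1
  sum_Y : ∑ k, (M (.Y k))ᴴ * M (.Y k) = M (.E c.j0 c.j0)
  Y_mul : ∀ k, M (.Y k) * M (.E c.j0 c.j0) = M (.Y k)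
  E_Y : ∀ i, i ≠ c.is → ∀ k, M (.E i i) * M (.Y k) = 0
  YY : ∀ k l, (M (.Y l))ᴴ * M (.Y k) = M (.H k l) * M (.E c.j0 c.j0)
  E_T : ∀ w, M (.E (c.iw w) (c.iw w)) * M (.T w) = M (.T w)
  star_B : ∀ w, (M (.B w))ᴴ = M (.B w)
  TT : ∀ w, (M (.T w))ᴴ * M (.T w) = M (.B w) * M (.B w) * M (.E c.j0 c.j0)
  star_R : ∀ w, (M (.R w))ᴴ = M (.R w)
  RR : ∀ w, M (.R w) * M (.R w)
    = ∑ k, ∑ l, (star (c.cw w k) * c.cw w l) • M (.H k l) + (8 / 5 : ℂ) • M (.B w)
      - (16 / 25 : ℂ) • (1 : Matrix I I ℂ)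

/-- A representation, together with a point `p` of the sphere, such that for some `w` with
`p ∈ F_w` all matrices commute with `q_w`. -/
structure RPt (c : Cmb I h) (p : EuclideanSpace ℂ (Fin 3)) (M : Gen I h → Matrix I I ℂ) :
    Prop where
  rel : Rel c M
  norm_p : ‖p‖ = 1
  cov : ∃ w, 4 / 5 ≤ ‖inner ℂ (c.cw w) p‖ ∧ ∀ g, c.q w * M g = M g * c.q w

/-- entrywise closeness -/
def Near (δ : ℝ) (M M' : Gen I h → Matrix I I ℂ) : Prop :=
  ∀ g i j, ‖M g i j - M' g i j‖ < δ

/-- The finite dimensional theorem. -/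
def RStmt : Prop :=
  ∀ (I : Type) [Fintype I] [DecidableEq I] (h : ℕ) (c : Cmb I h),
    ∃ (D : (Gen I h → Matrix I I ℂ) → EuclideanSpace ℂ (Fin 3) → ℂ)
      (kf : (Gen I h → Matrix I I ℂ) → EuclideanSpace ℂ (Fin 3) →
        (Gen I h → Matrix I I ℂ) → EuclideanSpace ℂ (Fin 3) → ℂ),
      (∀ M p, RPt c p M → ‖D M p‖ = 1) ∧
      (∀ M p, RPt c p M → D (c.conjU M) (om • p) = om * D M p) ∧
      (∀ M p M' p', RPt c p M → RPt c p' M' → ‖kf M p M' p'‖ = 1) ∧
      (∀ M p M' p', RPt c p M → RPt c p' M' →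
        kf (c.conjU M) (om • p) (c.conjU M') (om • p') = kf M p M' p') ∧
      (∀ ε : ℝ, 0 < ε → ∃ δ : ℝ, 0 < δ ∧ ∀ M p M' p', RPt c p M → RPt c p' M' →
        Near δ M M' → ‖p - p'‖ < δ → ‖D M' p' - D M p * kf M p M' p' ^ 3‖ < ε) ∧
      (∀ ε : ℝ, 0 < ε → ∃ δ : ℝ, 0 < δ ∧ ∀ M p M' p' M'' p'',
        RPt c p M → RPt c p' M' → RPt c p'' M'' →
        Near δ M M' → Near δ M' M'' → Near δ M M'' →
        ‖kf M p M' p' * kf M' p' M'' p'' - kf M p M'' p''‖ < ε)

/-- What the algebra block delivers: a representation `M x` for every point `x` of the base,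
continuous, equivariant, and satisfying `RPt` on the set `Z`; and the approximation property. -/
structure RepData (N : ℕ → ℕ) where
  /-- the index set `I` -/
  I : Type
  [fI : Fintype I]
  [dI : DecidableEq I]
  /-- the number of centres -/
  h : ℕ
  /-- the combinatorial data -/
  c : Cmb I h
  /-- the set `Z_0` -/
  Z : Set (XX N)
  Z_inv : ∀ j, ∀ x ∈ Z, tt j x ∈ Z
  /-- the matrices `M x g = (P θ(g)(x) P)^T` -/
  M : XX N → Gen I h → Matrix I I ℂ
  /-- the point `x_0`, as an element of `ℂ^3` -/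
  p : XX N → EuclideanSpace ℂ (Fin 3)
  cont_M : ∀ g i j, Continuous fun x => M x g i j
  cont_p : Continuous p
  rpt : ∀ x ∈ Z, RPt c (p x) (M x)
  M_zero : ∀ x ∈ Z, M (tt 0 x) = c.conjU (M x)
  p_zero : ∀ x ∈ Z, p (tt 0 x) = om • p x
  M_pos : ∀ j, j ≠ 0 → ∀ x ∈ Z, M (tt j x) = M x
  p_pos : ∀ j, j ≠ 0 → ∀ x ∈ Z, p (tt j x) = p x
  approx : ∀ V ∈ 𝓤 (XX N), ∃ (J : Finset ℕ) (ι : Type) (_ : Fintype ι) (ty : ι → ℕ)
    (g : ι → XX N → ℂ) (η : ℝ), 0 ∈ J ∧ (∀ i, ty i ∈ J ∧ ty i ≠ 0) ∧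
    (∀ j, 2 * Fintype.card {i // ty i = j} + 1 ≤ N j) ∧ (∀ i, Continuous (g i)) ∧
    (∀ i, ∀ j ∈ J, ∀ x, g i (tt j x) = (if j = ty i then om else 1) * g i x) ∧ 0 < η ∧
    ∀ x, (∀ i, ‖g i x‖ < η) → ∃ z ∈ Z, (x, z) ∈ V

attribute [instance] RepData.fI RepData.dI

/-- Block R delivers this. -/
def RFinStmt : Prop := ∀ N : ℕ → ℕ, RepData N → Nonempty (TopData N)

end Pool.OPP
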